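import Pool.Agent.H43.TC.Targets2

/-! # BRG: Blakley and Roy for monochromatic walks -/

set_option autoImplicit false

namespace Pool.Agent.H86.TC

open Finset
open Pool.Agent.H43.TC

theorem br_core {G : Type} [Fintype G] (A : G → G → ℝ) (hA : ∀ x y, 0 ≤ A x y)
    (hs : ∀ x y, A x y = A y x) (w : ℕ → G → ℝ) (hw1 : ∀ x, w 1 x = ∑ y, A x y)
    (hw : ∀ t x, w (t + 1) x = ∑ y, A x y * w t y) (m : ℝ)
    (hm : ((univ.filter fun x => 0 < w 1 x).card : ℝ) ≤ m) (t : ℕ) (ht : 1 ≤ t) :
    (∑ x, w 1 x) ^ t ≤ (∑ x, w t x) * m ^ (t - 1) := by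
  have hd0 : ∀ x, 0 ≤ w 1 x := fun x => by
    rw [hw1]
    exact sum_nonneg fun y _ => hA x y
  have hAd : ∀ x y, A x y ≤ w 1 x := fun x y => by
    rw [hw1]
    exact single_le_sum (f := fun y => A x y) (fun y _ => hA x y) (mem_univ y)
  have hAd' : ∀ x y, A x y ≤ w 1 y := fun x y => by
    rw [hs]
    exact hAd y x
  -- positivity
  have hpos : ∀ t, 1 ≤ t → ∀ x, (0 < w 1 x → 0 < w t x) ∧ 0 ≤ w t x := by
    intro t ht
    induction t, ht using Nat.le_induction with
    | base => exact fun x => ⟨fun h => h, hd0 x⟩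
    | succ t ht ih =>
      intro x
      have h0 : ∀ y ∈ univ, 0 ≤ A x y * w t y := fun y _ => mul_nonneg (hA x y) (ih y).2
      refine ⟨fun hx => ?_, ?_⟩
      · have h1 : ∃ y, 0 < A x y := by
          by_contra hcon
          push Not at hcon
          have h2 : w 1 x ≤ 0 := by
            rw [hw1]
            exact sum_nonpos fun y _ => hcon y
          linarith
        obtain ⟨y, hy⟩ := h1
        have h3 : 0 < w 1 y := lt_of_lt_of_le hy (hAd' x y)
        have h4 := (ih y).1 h3
        rw [hw]
        exact lt_of_lt_of_le (mul_pos hy h4)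
          (single_le_sum (f := fun y => A x y * w t y) h0 (mem_univ y))
      · rw [hw]
        exact sum_nonneg h0
  set E : ℝ := ∑ x, w 1 x with hE
  have hE0 : 0 ≤ E := sum_nonneg fun x _ => hd0 x
  rcases eq_or_lt_of_le hE0 with hEz | hEp
  · rw [← hEz, zero_pow (by omega)]
    refine mul_nonneg (sum_nonneg fun x _ => (hpos t ht x).2) (pow_nonneg ?_ _)
    exact (Nat.cast_nonneg _).trans hm
  set P : Finset G := univ.filter fun x => 0 < w 1 x with hP
  have hPz : ∀ x, x ∉ P → w 1 x = 0 := by
    intro x hx
    by_contra h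
    exact hx (mem_filter.mpr ⟨mem_univ _, lt_of_le_of_ne (hd0 x) (Ne.symm h)⟩)
  have hPsum : ∀ f : G → ℝ, (∀ x, w 1 x = 0 → f x = 0) → ∑ x ∈ P, f x = ∑ x, f x := by
    intro f hf
    exact sum_subset (subset_univ _) fun x _ hx => hf x (hPz x hx)
  have hlog := strictConcaveOn_log_Ioi.concaveOn
  -- step 1
  have step1 : ∀ t, 1 ≤ t → ∀ x, w 1 x * Real.log (w 1 x) + ∑ y, A x y * Real.log (w t y) ≤
      w 1 x * Real.log (w (t + 1) x) := by
    intro t ht x
    rcases eq_or_lt_of_le (hd0 x) with hx | hx
    · have h1 : ∀ y, A x y = 0 := fun y => le_antisymm ((hAd x y).trans hx.ge) (hA x y)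
      simp only [h1, ← hx]
      simp
    · have h2 : ∑ y ∈ P, A x y / w 1 x = 1 := by
        rw [hPsum (fun y => A x y / w 1 x) ?_, ← sum_div, ← hw1, div_self hx.ne']
        intro y hy
        have : A x y = 0 := le_antisymm ((hAd' x y).trans hy.le) (hA x y)
        rw [this, zero_div]
      have h3 := hlog.le_map_sum (t := P) (w := fun y => A x y / w 1 x) (p := fun y => w t y)
        (fun y _ => div_nonneg (hA x y) hx.le) h2
        (fun y hy => (hpos t ht y).1 (mem_filter.mp hy).2)
      simp only [smul_eq_mul] at h3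
      rw [hPsum (fun y => A x y / w 1 x * Real.log (w t y)) ?_,
        hPsum (fun y => A x y / w 1 x * w t y) ?_] at h3
      · have h4 : ∑ y, A x y / w 1 x * w t y = w (t + 1) x / w 1 x := by
          rw [hw t x, sum_div]
          exact sum_congr rfl fun y _ => by ring
        have h5 : ∑ y, A x y / w 1 x * Real.log (w t y) =
            (∑ y, A x y * Real.log (w t y)) / w 1 x := by
          rw [sum_div]
          exact sum_congr rfl fun y _ => by ring
        rw [h4, h5, Real.log_div ((hpos (t + 1) (by omega) x).1 hx).ne' hx.ne',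
          div_le_iff₀ hx] at h3
        linarith
      · intro y hy
        have : A x y = 0 := le_antisymm ((hAd' x y).trans hy.le) (hA x y)
        rw [this, zero_div, zero_mul]
      · intro y hy
        have : A x y = 0 := le_antisymm ((hAd' x y).trans hy.le) (hA x y)
        rw [this, zero_div, zero_mul]
  set h : ℝ := ∑ x, w 1 x * Real.log (w 1 x) with hh
  have step2 : ∀ t : ℕ, 1 ≤ t → (t : ℝ) * h ≤ ∑ x, w 1 x * Real.log (w t x) := by
    intro t ht
    induction t, ht using Nat.le_induction with
    | base => simp [hh]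
    | succ t ht ih =>
      have h1 := sum_le_sum fun x (_ : x ∈ (univ : Finset G)) => step1 t ht x
      rw [sum_add_distrib, sum_comm] at h1
      have h2 : ∑ y, ∑ x, A x y * Real.log (w t y) = ∑ y, w 1 y * Real.log (w t y) := by
        refine sum_congr rfl fun y _ => ?_
        rw [← sum_mul, hw1 y]
        congr 1
        exact sum_congr rfl fun x _ => hs x y
      rw [h2] at h1
      push_cast
      linarith
  -- step 3
  have hPE : ∑ x ∈ P, w 1 x / E = 1 := by
    rw [hPsum (fun x => w 1 x / E) (fun x hx => by rw [hx, zero_div]), ← sum_div, ← hE,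
      div_self hEp.ne']
  have hPne : P.Nonempty := by
    by_contra hcon
    rw [not_nonempty_iff_eq_empty] at hcon
    rw [hcon, sum_empty] at hPE
    exact zero_ne_one hPE
  have hPc : (0 : ℝ) < P.card := by exact_mod_cast hPne.card_pos
  have hm0 : 0 < m := lt_of_lt_of_le hPc hm
  have step3 : Real.log (E / m) ≤ h / E := by
    have h3 := hlog.le_map_sum (t := P) (w := fun x => w 1 x / E) (p := fun x => (w 1 x)⁻¹)
        (fun y _ => div_nonneg (hd0 y) hE0) hPE
        (fun y hy => inv_pos.mpr (mem_filter.mp hy).2)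
    simp only [smul_eq_mul, Real.log_inv] at h3
    have h4 : ∑ x ∈ P, w 1 x / E * (w 1 x)⁻¹ = P.card / E := by
      rw [card_eq_sum_ones, Nat.cast_sum, sum_div]
      refine sum_congr rfl fun x hx => ?_
      have : 0 < w 1 x := (mem_filter.mp hx).2
      field_simp
      simp
    have h5 : ∑ x ∈ P, w 1 x / E * -Real.log (w 1 x) = -(h / E) := by
      rw [hPsum (fun x => w 1 x / E * -Real.log (w 1 x)) (fun x hx => by rw [hx]; simp),
        hh, sum_div, ← sum_neg_distrib]
      exact sum_congr rfl fun x _ => by ring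
    rw [h4, h5] at h3
    have h6 : Real.log (P.card / E) ≤ Real.log (m / E) :=
      Real.log_le_log (by positivity) (div_le_div_of_nonneg_right hm hE0)
    have h7 : Real.log (m / E) = -Real.log (E / m) := by
      rw [← Real.log_inv, inv_div]
    linarith
  have step4 : ((t : ℝ) - 1) * (h / E) ≤ Real.log ((∑ x, w t x) / E) := by
    have h3 := hlog.le_map_sum (t := P) (w := fun x => w 1 x / E) (p := fun x => w t x / w 1 x)
        (fun y _ => div_nonneg (hd0 y) hE0) hPE
        (fun y hy => div_pos ((hpos t ht y).1 (mem_filter.mp hy).2) (mem_filter.mp hy).2)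
    simp only [smul_eq_mul] at h3
    have h4 : ∑ x ∈ P, w 1 x / E * (w t x / w 1 x) = (∑ x ∈ P, w t x) / E := by
      rw [sum_div]
      refine sum_congr rfl fun x hx => ?_
      have : 0 < w 1 x := (mem_filter.mp hx).2
      field_simp
    have h5 : ∑ x ∈ P, w 1 x / E * Real.log (w t x / w 1 x) =
        (∑ x, w 1 x * Real.log (w t x) - h) / E := by
      rw [hh, ← sum_sub_distrib, sum_div,
        ← hPsum (fun x => (w 1 x * Real.log (w t x) - w 1 x * Real.log (w 1 x)) / E)
          (fun x hx => by rw [hx]; simp)]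
      refine sum_congr rfl fun x hx => ?_
      have h6 : 0 < w 1 x := (mem_filter.mp hx).2
      rw [Real.log_div ((hpos t ht x).1 h6).ne' h6.ne']
      ring
    rw [h4, h5] at h3
    have h6 : ∑ x ∈ P, w t x ≤ ∑ x, w t x :=
      sum_le_sum_of_subset_of_nonneg (subset_univ _) fun x _ _ => (hpos t ht x).2
    have h7 : 0 < ∑ x ∈ P, w t x :=
      sum_pos (fun x hx => (hpos t ht x).1 (mem_filter.mp hx).2) hPne
    have h8 : Real.log ((∑ x ∈ P, w t x) / E) ≤ Real.log ((∑ x, w t x) / E) :=
      Real.log_le_log (by positivity) (div_le_div_of_nonneg_right h6 hE0)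
    refine le_trans ?_ (h3.trans h8)
    rw [← mul_div_assoc]
    refine div_le_div_of_nonneg_right ?_ hE0
    have := step2 t ht
    linarith
  -- conclusion
  have hs0 : 0 < ∑ x, w t x := by
    obtain ⟨x, hx⟩ := hPne
    exact lt_of_lt_of_le ((hpos t ht x).1 (mem_filter.mp hx).2)
      (single_le_sum (f := fun x => w t x) (fun y _ => (hpos t ht y).2) (mem_univ x))
  have ht1 : (0 : ℝ) ≤ (t : ℝ) - 1 := by
    have : (1 : ℝ) ≤ t := by exact_mod_cast ht
    linarith
  have h9 : Real.log ((E / m) ^ (t - 1)) ≤ Real.log ((∑ x, w t x) / E) := by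
    rw [Real.log_pow, Nat.cast_sub ht, Nat.cast_one]
    exact (mul_le_mul_of_nonneg_left step3 ht1).trans step4
  have h10 := (Real.log_le_log_iff (by positivity) (by positivity)).mp h9
  rw [le_div_iff₀ hEp, div_pow, div_mul_eq_mul_div, div_le_iff₀ (by positivity)] at h10
  calc E ^ t = E ^ (t - 1) * E := by rw [← pow_succ]; congr 1; omega
    _ ≤ _ := h10

theorem brg : T_BRG := by
  classical
  intro G _ _ k s c b t ht
  set N : G → G → ℝ := fun x y =>
    ∑ i, ((if x + s i = y then (1 : ℝ) else 0) + (if x - s i = y then (1 : ℝ) else 0)) with hN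
  set A : G → G → ℝ := fun x y => if c x = b then (if c y = b then N x y else 0) else 0 with hA
  set w : ℕ → G → ℝ := fun t x => (walks s c b t x : ℝ) with hw
  have hNs : ∀ x y, N x y = N y x := by
    intro x y
    simp only [hN]
    refine sum_congr rfl fun i _ => ?_
    rw [add_comm]
    have e1 : (x - s i = y) ↔ (y + s i = x) := by
      rw [sub_eq_iff_eq_add, eq_comm]
    have e2 : (x + s i = y) ↔ (y - s i = x) := by
      rw [sub_eq_iff_eq_add, eq_comm]
    simp only [e1, e2]
  have hN0 : ∀ x y, 0 ≤ N x y := by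
    intro x y
    refine sum_nonneg fun i _ => add_nonneg ?_ ?_ <;> split_ifs <;> norm_num
  have hA0 : ∀ x y, 0 ≤ A x y := by
    intro x y
    simp only [hA]
    split_ifs
    · exact hN0 x y
    · exact le_rfl
    · exact le_rfl
  have hAs : ∀ x y, A x y = A y x := by
    intro x y
    simp only [hA]
    by_cases h1 : c x = b <;> by_cases h2 : c y = b <;> simp [h1, h2, hNs x y]
  have hwz : ∀ t x, c x ≠ b → walks s c b t x = 0 := by
    intro t x hx
    cases t with
    | zero => simp [walks, hx]
    | succ t => simp [walks, hx]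
  have hrec : ∀ t x, w (t + 1) x = ∑ y, A x y * w t y := by
    intro t x
    simp only [hw, hA]
    by_cases hx : c x = b
    · simp only [walks, hx, if_true]
      have h1 : ∀ y, (if c y = b then N x y else 0) * (walks s c b t y : ℝ) =
          N x y * (walks s c b t y : ℝ) := by
        intro y
        by_cases hy : c y = b
        · rw [if_pos hy]
        · rw [if_neg hy, hwz t y hy]
          simp
      rw [sum_congr rfl fun y _ => h1 y]
      simp only [hN, sum_mul]
      rw [sum_comm]
      push_cast
      refine sum_congr rfl fun i _ => ?_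
      simp only [add_mul, sum_add_distrib, ite_mul, one_mul, zero_mul]
      rw [sum_ite_eq, sum_ite_eq, if_pos (mem_univ _), if_pos (mem_univ _)]
    · simp [walks, hx]
  have hw1 : ∀ x, w 1 x = ∑ y, A x y := by
    intro x
    have h1 := hrec 0 x
    rw [zero_add] at h1
    rw [h1]
    refine sum_congr rfl fun y _ => ?_
    simp only [hA, hw, walks]
    by_cases hy : c y = b
    · simp [hy]
    · simp [hy]
  have hcard : (((univ.filter fun x => 0 < w 1 x).card : ℕ) : ℝ) ≤
      ((univ.filter (fun x => c x = b)).card : ℝ) := by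
    have : (univ.filter fun x => 0 < w 1 x) ⊆ (univ.filter (fun x => c x = b)) := by
      intro x hx
      rw [mem_filter] at hx ⊢
      refine ⟨mem_univ _, ?_⟩
      by_contra h
      have h1 := hx.2
      simp only [hw] at h1
      rw [hwz 1 x h] at h1
      simp at h1
    exact_mod_cast card_le_card this
  have key := br_core A hA0 hAs w hw1 hrec _ hcard t ht
  simp only [hw] at key
  exact_mod_cast key

end Pool.Agent.H86.TC
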