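import Pool.Agent.H43.TC.Targets2
import Pool.Agent.H43.TC.FIN

/-! # EDGE: the edge at the corner, whenever there is a diameter perfect code -/

set_option autoImplicit false

namespace Pool.Agent.H86.TC

open Finset
open Pool.Agent.H43.TC

theorem edge (hCR1 : T_CR1) (hCR2 : T_CR2) (hATT : T_ATT) (hONE : T_ONE) (hBOX : T_BOX) :
    T_EDGE := by
  intro k t N hk ht hN hP
  obtain ⟨⟨a, ha1, ha2⟩, A, hA1, hA2, hA3⟩ := hP
  have : NeZero N := ⟨by omega⟩
  have hk0 : 0 < k := by omega
  have hN1 : (0 : ℝ) < (N : ℝ) - 1 := by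
    have : (3 : ℝ) ≤ N := by exact_mod_cast hN
    linarith
  refine ⟨fun p hp => hCR1 k t p.1 p.2 hk0 (by omega) hp, ?_⟩
  have hv := hATT k t N a hk0 (by omega) (by omega) ha1 ha2
  have h1 := hONE k t hk0
  ext p
  constructor
  · rintro ⟨hp, he⟩
    have h2 := hCR2 k t A p.1 p.2 hk ht hA1 hA2 hp
    have h3 := hBOX k t p.1 p.2 hk0 hp
    rw [he, sub_self, mul_zero, sub_zero, hA3] at h2
    refine ⟨(1 - p.1) * ((N : ℝ) - 1), 1 - (1 - p.1) * ((N : ℝ) - 1), ?_, ?_, ?_, ?_⟩
    · exact mul_nonneg (by linarith [h3.2.1]) hN1.le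
    · rw [mul_comm] at h2
      linarith
    · ring
    · ext
      · simp only [Prod.fst_add, Prod.smul_fst, smul_eq_mul]
        field_simp
        ring
      · simp only [Prod.snd_add, Prod.smul_snd, smul_eq_mul]
        have h4 : p.2 = 1 - (rng k t - 1) * (1 - p.1) := by linarith
        rw [h4]
        field_simp
        ring
  · rintro ⟨x, y, hx, hy, hxy, rfl⟩
    refine ⟨(cvx' k t hk0) hv h1 hx hy hxy, ?_⟩
    have h4 : y = 1 - x := by linarith
    simp only [Prod.snd_add, Prod.smul_snd, Prod.fst_add, Prod.smul_fst, smul_eq_mul]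
    rw [h4]
    field_simp
    ring

end Pool.Agent.H86.TC
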